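import Pool.Agent.Helper34.PT.Final

/-!
# Post's tag system with productions 00 and 1101 evaluates Boolean formulas

Write `T` for one step of Post's process (`step`).  For every Boolean formula `φ` of depth `d` there is a word
`p(x)`, each letter of which depends on at most one of the bits `x i`, of length exponential in `d` only, such
that after a fixed number `t` of steps, also exponential in `d` only, the process started at `p(x)` reads the
letter `φ(x)` (and goes on to read this letter as long as we like).  Formulas of depth `O(log n)` are `NC^1`, so
predicting Post's process is `NC^1`-hard under projections.

Proof.  Parse words into the blocks `a = 00` and `b = 1101`; the state is the number (0, 1 or 2) of letters which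
still have to be skipped.  `k` passes over a word act on profiles of `k` states, vertices of the ternary tree:
`a = (a, a, 1)σ`, `b = (bb, b, a)σ⁻¹`.  On level `k` every word has order a power of `3`, so inverses are
available.  With `q = b a⁻²`, `q' = a⁻¹ q a` the commutator `h = [q, q']` is `(1, G, 1)` where `G` fixes the vertex
`11` and rotates its children.  Lifts `H` of `h` to the vertices `1^l` cost little, and
`X_(d+1) = [X_d, H⁻¹ X_d H]` fixes `1^(3d+4)` and rotates its children; conditional programs for these elements
are built as in Barrington's theorem.  The words `(ba)^M` are reproduced in the state 1, while in the state 0 only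
letters 1 are read in them and in the state 2 only letters 0: this makes the exact time of the last pass
irrelevant.
-/

set_option autoImplicit false

namespace Pool.Agent.Results.MP_41f897_lc.FormulaEvaluation

open Pool.Agent.Helper34.PT

/-- There is a constant `C` such that for every Boolean formula `φ` and every `m` there are a pattern `p` of
length at most `C^(depth φ + 1) (m + 1)` and a time `t` with the same bound such that for all bits `x` and all
`j ≤ m` Post's process started at the word `p(x)` is defined for `t + j` steps and leads to a word whose first
letter is the truth value of `φ` at `x`. -/
theorem result : ∃ C : ℕ, ∀ (φ : Formula) (m : ℕ), ∃ (p : List (ℕ × Bool × Bool)) (t : ℕ),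
    p.length ≤ C ^ (φ.depth + 1) * (m + 1) ∧ t ≤ C ^ (φ.depth + 1) * (m + 1) ∧
    ∀ x : ℕ → Bool, ∀ j ≤ m, ∃ w : List Bool, run (t + j) (fill p x) = some (φ.eval x :: w) :=
  ⟨200000, main⟩

end Pool.Agent.Results.MP_41f897_lc.FormulaEvaluation
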