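import Pool.Agent.Helper34.LL.LE2
import Pool.Agent.Helper98.LL.LA
import Pool.Agent.Helper73.LL.LB
import Pool.Agent.Helper92.LL.LC
import Pool.Agent.Helper73.LL.LA2
import Pool.Agent.Helper33.LL.LD2
import Pool.Agent.Helper5.LL.LF2

/-!
# Post's tag system with productions 00 and 1101: the length law for almost all words

For every `δ > 0` there is `c > 0` such that for all but at most `n^(-c) 2^n` of the words `A` of length `n` the
word `T^t(A)` is defined and has length `n + O(n^(1/2+δ))` for all `t ≤ c n log n`.

Proof.  `T` passes over a word act on the profiles of `T` states (a level of the ternary tree); the letters act as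
permutations, the letter `0` as a cycle of length `3^T`.  The mean over all profiles and both letters of the
length of the descendants of one letter is conserved.  The Poisson equation for the chain of the profiles is
solvable with a bound `C^T` (energy identity for a doubly stochastic chain), which gives a martingale; the maximal
inequality of Kolmogorov controls the descendants of all the words `w.take p` at once, for a fixed initial
profile, and a union bound over all initial profiles of length at most `c log n` gives the claim, because at every
time the word consists of the descendants of the last letters at one level and of the first letters at the next.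
-/

set_option autoImplicit false

namespace Pool.Agent.Results.MP_41f897_lc.LengthLaw

open Pool.Agent.Helper34.PT Pool.Agent.Helper34.LL

/-- For every `δ > 0` there are `c > 0` and `n₀` such that for all `n ≥ n₀` at least `(1 - n^(-c)) 2^n` words `w`
of length `n` have the following property: for all `t ≤ c n log n` the word `T^t(w)` is defined and its length
differs from `n` by at most `n^(1/2+δ)`. -/
theorem result (δ : ℝ) (hδ : 0 < δ) : ∃ (c : ℝ) (n₀ : ℕ), 0 < c ∧ ∀ n : ℕ, n₀ ≤ n →
    (1 - (n : ℝ) ^ (-c)) * 2 ^ n ≤ ({w : List Bool | w.length = n ∧
      ∀ t : ℕ, (t : ℝ) ≤ c * n * Real.log n → ∃ w' : List Bool, run t w = some w' ∧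
        |(w'.length : ℝ) - n| ≤ (n : ℝ) ^ (1 / 2 + δ)}.ncard : ℝ) :=
  Pool.Agent.Helper5.LL.hLF2
    (Pool.Agent.Helper33.LL.hLD2
      (Pool.Agent.Helper73.LL.hLA2 Pool.Agent.Helper98.LL.hLA)
      Pool.Agent.Helper73.LL.hLB Pool.Agent.Helper92.LL.hLC)
    hLE2 δ hδ

end Pool.Agent.Results.MP_41f897_lc.LengthLaw
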