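import Pool.Agent.Helper34.SD.Main
import Pool.Agent.Helper55.SD.E1
import Pool.Agent.Helper71.SD.E2
import Pool.Agent.Helper29.SD.E3
import Pool.Agent.Helper61.SD.C1
import Pool.Agent.Helper51.SD.C2a
import Pool.Agent.Helper73.SD.C2

/-!
# Post's tag system with productions 00 and 1101: almost all words with exactly `k` letters 1 stop

For every `k` and `ε > 0` there is `C` such that for all large `n` at least the proportion `1 - ε` of the words
of length `n` with exactly `k` letters `1` stops within `C n` steps.

Proof.  One pass over a word acts on the ternary tree of phase profiles, `a = (a, a, 1)σ`, `b = (bb, b, a)σ⁻¹`.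
Averaged over all profiles of a given length the number of letters `b` is conserved, and the probability that
`b` has a descendant is subadditive and harmonic.  Along the profile `(0,1,1,1,1)^n` the descendants of `b` are
`X Q^(n-3)` with the fixed block `Q = 001110`: their number is unboundedly large, so the probability of survival
tends to `0` (a positive limit `δ` would bound the number of descendants by `1/δ`).  If the core `u` of
`0^t u 0^(S-t)` is moved, `t` modulo `3^m` and the profile of the first `m` passes at `u` determine each other,
because a power of `0` acts as an odometer: the profile is equidistributed, and with probability close to `1`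
all letters `b` have died out after `m` passes; then the process stops.
-/

set_option autoImplicit false

namespace Pool.Agent.Results.MP_41f897_lc.SparseWordsHalt

open Pool.Agent.Helper34.SD Pool.Agent.Helper34.PT

/-- For every `k` and `ε > 0` there are `C` and `n₀` such that for all `n ≥ n₀`, among the words of length `n`
with exactly `k` letters `1`, at least the proportion `1 - ε` stops within `C n` steps. -/
theorem result (k : ℕ) (ε : ℝ) (hε : 0 < ε) : ∃ C n₀ : ℕ, ∀ n : ℕ, n₀ ≤ n →
    (1 - ε) * ({w : List Bool | w.length = n ∧ w.count true = k}.ncard : ℝ) ≤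
      ({w : List Bool | w.length = n ∧ w.count true = k ∧ run (C * n) w = none}.ncard : ℝ) := by
  rcases Nat.eq_zero_or_pos k with hk | hk
  · subst hk
    refine ⟨5, 1, ?_⟩
    intro n hn
    have e : {w : List Bool | w.length = n ∧ w.count true = 0 ∧ run (5 * n) w = none} =
        {w : List Bool | w.length = n ∧ w.count true = 0} := by
      ext w
      constructor
      · exact fun h => ⟨h.1, h.2.1⟩
      · exact fun h => ⟨h.1, h.2, sparse_zero n w h.1 h.2 hn⟩
    rw [e]
    have h0 : (0 : ℝ) ≤ ({w : List Bool | w.length = n ∧ w.count true = 0}.ncard : ℝ) :=
      Nat.cast_nonneg _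
    nlinarith
  · obtain ⟨C, n₀, h⟩ := sparse_main Pool.Agent.Helper55.SD.hE1
      (Pool.Agent.Helper29.SD.hE3 Pool.Agent.Helper55.SD.hE1 Pool.Agent.Helper71.SD.hE2)
      Pool.Agent.Helper61.SD.hC1
      (Pool.Agent.Helper73.SD.hC2 Pool.Agent.Helper61.SD.hC1
        (Pool.Agent.Helper51.SD.hC2a Pool.Agent.Helper61.SD.hC1)) k hk ε hε
    refine ⟨C, n₀, fun n hn => ?_⟩
    rw [(Pool.Agent.Helper61.SD.hC1 n k).2]
    exact h n hn

end Pool.Agent.Results.MP_41f897_lc.SparseWordsHalt
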