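import Pool.Agent.Helper34.SD.Gap
import Pool.Agent.Helper55.SD.E1
import Pool.Agent.Helper71.SD.E2
import Pool.Agent.Helper29.SD.E3

/-!
# Post's tag system with productions 00 and 1101: the words `u 0^i v` stop for almost all `i`

Proof: see the file `SparseWordsHalt`.  In `u 0^i v` the number `i` modulo `3^m` and the profile of the first `m`
passes at the beginning of `v` determine each other, and all letters `1` die out for almost all profiles.
-/

set_option autoImplicit false

namespace Pool.Agent.Results.MP_41f897_lc.ZeroGapHalt

open Pool.Agent.Helper34.SD Pool.Agent.Helper34.PT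

/-- For all words `u`, `v` and every `ε > 0` there are a constant `C`, a modulus `3^m` and a set `R` of at least
`(1-ε) 3^m` residues such that Post's process started at `u 0^i v` stops within `C (i+1)` steps for every `i`
whose residue modulo `3^m` is in `R`. -/
theorem result (u v : List Bool) (ε : ℝ) (hε : 0 < ε) :
    ∃ (C m : ℕ) (R : Finset ℕ), R ⊆ Finset.range (3 ^ m) ∧ (1 - ε) * 3 ^ m ≤ R.card ∧
      ∀ i : ℕ, i % 3 ^ m ∈ R → run (C * (i + 1)) (u ++ List.replicate i false ++ v) = none :=
  gap_main Pool.Agent.Helper55.SD.hE1
    (Pool.Agent.Helper29.SD.hE3 Pool.Agent.Helper55.SD.hE1 Pool.Agent.Helper71.SD.hE2) u v ε hε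

end Pool.Agent.Results.MP_41f897_lc.ZeroGapHalt
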